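import Mathlib
import Pool.Agent.H284.AP.Spl

/-!
# Galois groups over `ℚ`: nonsplit extensions by products of wreath products

Let `X → Γ` be an epimorphism of groups with kernel `N ≅ ∏ G i ≀ S_(n i)` (finite direct product),
where all `G i` are nontrivial finite groups with trivial centre and `n i ≥ ((3 |G i| + 2)!)^3`;
`WreathStep` says in addition that for every `i` the inner automorphisms of `G i` have a complement
in `Aut (G i)` (`InnerSplit`) or `|G i|` is coprime to the index of `F C_X(F)` in `N_X(F)`
(`locIndex`), where `F` is the `i`-th factor of `N` (`Factor`); that index is the order of the group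
of outer automorphisms of `F` given by the elements of `X` which normalize `F`. The extension need
not be split, `X` may permute isomorphic factors in any way.

The theorem: let `L` be a finite Galois extension of `ℚ` and
`Gal(L/ℚ) = W 0 ← W 1 ← W 2 ← ...` a sequence of such epimorphisms. Then `L` is contained in a Galois
extension of `ℚ` whose group is the inverse limit of the `W i`, compatibly with the action on `L`.
In particular (identities `W (i + 1) → W i` for `i ≥ 1`) if `Γ` is the Galois group of a Galois
extension of `ℚ`, so is `X`.


Outline. The groups `G i ≀ S_(n i)` are directly indecomposable and centreless, so the automorphisms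
of `N` permute the factors (Krull-Schmidt), and `X → Γ` is determined by the homomorphism
`Γ → Out N = ∏ Out(G j) ≀ S_(k j)`. This homomorphism is lifted to `∏ Aut(G j) ≀ S_(k j)`: it is
enough to lift the homomorphisms `N_X(F) → Out(G j)` for all factors `F`, which is done by the
complement or by the theorem of Schur and Zassenhaus. So `X` is a semidirect product of `N` and `Γ`,
the action being given by automorphisms of the groups `G j` and permutations of the factors. The
embedding problems with such kernels `(G ≀ S_n)^k` are solved in the starting library.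
-/

set_option autoImplicit false

open Pool.Agent.H284.AP (WreathStep)

namespace Pool.Agent.Results.MP_dadaab_nt.CoprimeExtensions

/-- The inverse limit of the sequence `W 0 ← W 1 ← W 2 ← ...`: the group of all sequences `x` with
`p i (x (i + 1)) = x i`. -/
abbrev InvLim {W : ℕ → Type} [∀ i, Group (W i)] (p : ∀ i, W (i + 1) →* W i) : Subgroup (∀ i, W i) :=
  Pool.Agent.TH15.IGP.Lim p

/-- The defining property of the inverse limit. -/
theorem mem_invLim {W : ℕ → Type} [∀ i, Group (W i)] (p : ∀ i, W (i + 1) →* W i)
    (x : ∀ i, W i) : x ∈ InvLim p ↔ ∀ i, p i (x (i + 1)) = x i := Iff.rfl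

/-- The Galois extension `L` of `K` is contained in a Galois extension `F` of `K` whose group is
isomorphic to the inverse limit of the `W i` (all components of the isomorphism `γ` are continuous:
they have open kernels), such that the action on `L` is `σ ↦ e₀ (component of γ σ in W 0)`. -/
def ProperSol (K L : Type) [Field K] [Field L] [Algebra K L] {W : ℕ → Type} [∀ i, Group (W i)]
    (p : ∀ i, W (i + 1) →* W i) (e₀ : W 0 ≃* (L ≃ₐ[K] L)) : Prop :=
  ∃ (F : Type) (_ : Field F) (_ : Algebra K F) (_ : Algebra L F) (_ : IsScalarTower K L F)
    (_ : IsGalois K F) (γ : (F ≃ₐ[K] F) ≃* InvLim p),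
    (∀ i, IsOpen {σ : F ≃ₐ[K] F | (γ σ).1 i = 1}) ∧
    ∀ (σ : F ≃ₐ[K] F) (x : L), σ (algebraMap L F x) = algebraMap L F (e₀ ((γ σ).1 0) x)

end Pool.Agent.Results.MP_dadaab_nt.CoprimeExtensions

open Pool.Agent.Results.MP_dadaab_nt.CoprimeExtensions in
theorem Pool.Agent.Results.MP_dadaab_nt.CoprimeExtensions.result :
    ∀ (L : Type) [Field L] [NumberField L] [IsGalois ℚ L]
      (W : ℕ → Type) [∀ i, Group (W i)] (e₀ : W 0 ≃* (L ≃ₐ[ℚ] L))
      (p : ∀ i, W (i + 1) →* W i), (∀ i, WreathStep (p i)) → ProperSol ℚ L p e₀ := by
  intro L _ _ _ W _ e₀ p hp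
  exact Pool.Agent.TH444.TW.cls_hilb Pool.Agent.H391R2.T4.hilb_rat W p
    (fun i => Pool.Agent.H284.AP.wreathStep_cls ℚ (hp i)) L e₀
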