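import Mathlib
import Pool.Agent.H284.AP.Seq

/-!
# Automorphism groups and holomorphs of large direct powers of finite groups

Let `G i`, `i ∈ I`, be finitely many arbitrary finite groups, `H = ∏ (G i)^(n i)` with
`n i ≥ bd |G i|`, where `bd c = ((3 c c! + 2)!)^3` (`LargePower H`). Let `Aut_c(H)`
(`CentralAut H`) be the group of all automorphisms `θ` with `θ x x⁻¹ ∈ Z(H)` for all `x`, `Z1(H)`
the subgroup of the centre generated by all these elements `θ x x⁻¹`, and
`E(H) = Z1(H) ⋊ Aut_c(H)` (`EE H`), a normal subgroup of the holomorph `Hol(H) = H ⋊ Aut(H)`.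

The groups `Aut(H)/[Aut_c(H), Aut_c(H)]` (`AutE H`) and `Hol(H)/[E(H), E(H)]` (`HolE H`) are Galois
groups over `ℚ`. If `f (g x) = 1` for any two homomorphisms `f, g : H → Z(H)` (condition `CC H`; for
example if `Z(G i) ≤ [G i, G i]` for all `i`) then `Aut(H)` and `Hol(H)` are Galois groups over `ℚ`.
More precisely: for every finite Galois extension `L` of `ℚ` and every sequence `N k` of such groups
(`PowerType (N k)`) there is a Galois extension of `ℚ` containing `L` with the group
`Gal(L/ℚ) × ∏ N k`, compatibly with the restriction to `L`.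

Outline. `H` is a direct product of indecomposable groups `R j` with large multiplicities `m j`. By
the method of the Krull-Schmidt theorem every automorphism of `H` is, up to a central automorphism,
given by a permutation of isomorphic nonabelian factors and automorphisms of these factors; so
`Hol(H)` is the product of `E(H)` and the image of the direct product of the wreath products
`Hol(R j) ≀ S_(m j)`. So `Hol(H)/[E(H), E(H)]` is a quotient of a semidirect product of a direct
product of wreath products with a finite abelian kernel. The starting library realizes the wreath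
products and solves the split embedding problems with abelian kernels.
-/

set_option autoImplicit false

open Pool.Agent.H284.AP

namespace Pool.Agent.Results.MP_dadaab_nt.LargePowers

/-- All components in the groups `N k` of the isomorphism `γ` are continuous: their kernels are
open. -/
def Cont {F Γ : Type} [Field F] [Algebra ℚ F] [Group Γ] {N : ℕ → Type} [∀ k, Group (N k)]
    (γ : (F ≃ₐ[ℚ] F) ≃* Γ × (∀ k, N k)) : Prop :=
  ∀ k, IsOpen {σ : F ≃ₐ[ℚ] F | (γ σ).2 k = 1}

/-- Each `σ` acts on the subfield `L` of `F` as the component of `γ σ` in `Gal(L/ℚ)`. -/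
def Restricts {F L : Type} [Field F] [Algebra ℚ F] [Field L] [Algebra ℚ L] [Algebra L F]
    {M : Type} [Group M] (γ : (F ≃ₐ[ℚ] F) ≃* (L ≃ₐ[ℚ] L) × M) : Prop :=
  ∀ (σ : F ≃ₐ[ℚ] F) (x : L), σ (algebraMap L F x) = algebraMap L F ((γ σ).1 x)

/-- The finite Galois extension `L` of `ℚ` is contained in a Galois extension `F` of `ℚ` with the
group `Gal(L/ℚ) × ∏ N k` (all components of the isomorphism are continuous, that is, have open
kernel); the first component gives the action on `L`. -/
def OccursWith (L : Type) [Field L] [NumberField L] (N : ℕ → Type) [∀ k, Group (N k)] : Prop :=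
  ∃ (F : Type) (_ : Field F) (_ : Algebra ℚ F) (_ : Algebra L F) (_ : IsScalarTower ℚ L F)
    (_ : IsGalois ℚ F) (γ : (F ≃ₐ[ℚ] F) ≃* (L ≃ₐ[ℚ] L) × (∀ k, N k)), Cont γ ∧ Restricts γ

theorem occursWith (L : Type) [Field L] [NumberField L] [IsGalois ℚ L] (N : ℕ → Type)
    [∀ k, Group (N k)] (hN : ∀ k, PowerType (N k)) : OccursWith L N := by
  obtain ⟨F, i1, i2, i3, i4, i5, γ, h1, h2⟩ := Pool.Agent.TH444.TW.cls_hilb
    Pool.Agent.H391R2.T4.hilb_rat (WS (L ≃ₐ[ℚ] L) N) (pS (L ≃ₐ[ℚ] L) N)
    (pS_cls (L ≃ₐ[ℚ] L) N hN ℚ) L (zS (L ≃ₐ[ℚ] L) N)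
  refine ⟨F, i1, i2, i3, i4, i5, γ.trans (limS (L ≃ₐ[ℚ] L) N), fun k => ?_, fun σ x => h2 σ x⟩
  exact isOpen_comp (L ≃ₐ[ℚ] L) N γ h1 k

end Pool.Agent.Results.MP_dadaab_nt.LargePowers

open Pool.Agent.Results.MP_dadaab_nt.LargePowers in
theorem Pool.Agent.Results.MP_dadaab_nt.LargePowers.result :
    ∀ (L : Type) [Field L] [NumberField L] [IsGalois ℚ L] (N : ℕ → Type) [∀ k, Group (N k)],
      (∀ k, PowerType (N k)) → OccursWith L N := by
  intro L _ _ _ N _ hN
  exact occursWith L N hN
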