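import Mathlib
import Pool.Prelude.Def_F_b1b78ff3
import Pool.Agent.V11279.IG.E
import Pool.Agent.V11279.IG.F

/-!
# The inverse Galois problem and normal subgroups of Galois groups

For every field `k` (for example `ℚ`) the following are equivalent:

1. every finite group is a Galois group over `k`;
2. every finite group is isomorphic to a *normal subgroup* of a (finite or infinite) Galois group
   over `k`, that is, to `Gal(L / K)` with `L` and `K ⊆ L` Galois extensions of `k`;
3. for every `C` every finite group of sufficiently large order has a *quotient* of order at least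
   `C` which is isomorphic to a normal subgroup of a Galois group over `k`.

So if a single finite group is not a Galois group over `ℚ`, then there are finite groups of
arbitrarily large order whose quotients which are Galois groups over `ℚ` (or only normal subgroups
of Galois groups over `ℚ`) have bounded order.

The second part shows that normality cannot be relaxed: every finite group is a normal subgroup of
a normal subgroup of a Galois group over `ℚ`.

The proof of the equivalence: for a finite group `G` let `T = A_n` with `n` large, let `h` be an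
element of the base group of `T ≀ G` whose components have distinct odd prime orders, and let
`W = A_m ≀ (T ≀ G)`, where `T ≀ G` acts on the cosets of `⟨h⟩`, with `m` arbitrarily large. All
proper quotients of `W` are quotients of `T ≀ G`. The projection `W → G` extends to a homomorphism
`Aut(W) → G`: an automorphism of `W` permutes the simple factors of the base group of `W`, so it
induces an automorphism of `T ≀ G` which maps `⟨h⟩` to a conjugate, and this automorphism permutes
the factors of the base group of `T ≀ G` by a left translation, because the components of `h`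
have distinct orders. So `G` is a quotient of every group with a normal subgroup isomorphic
to `W`.
-/

set_option autoImplicit false

namespace Pool.Agent.Results.MP_dadaab_nt.NormalSubgroupsSuffice

open Nfff32c05

/-- `G` is isomorphic to a normal subgroup of a group `Γ` which is a Galois group over `k`
(`Γ` may be infinite). -/
def IsNormallyRealizable (k G : Type) [Field k] [Group G] : Prop :=
  ∃ (Γ : Type) (_ : Group Γ) (N : Subgroup Γ),
    IsRealizable k Γ ∧ N.Normal ∧ Nonempty (G ≃* N)

/-- `G` is isomorphic to a normal subgroup of a normal subgroup of a Galois group over `k`. -/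
def IsSubnormallyRealizable (k G : Type) [Field k] [Group G] : Prop :=
  ∃ (Γ : Type) (_ : Group Γ) (N : Subgroup Γ) (R : Subgroup N),
    IsRealizable k Γ ∧ N.Normal ∧ R.Normal ∧ Nonempty (G ≃* R)

/-- Every finite group is a Galois group over `k`. -/
def AllRealizable (k : Type) [Field k] : Prop :=
  ∀ (G : Type) [Group G] [Finite G], IsRealizable k G

/-- Every finite group is isomorphic to a normal subgroup of a Galois group over `k`. -/
def AllNormallyRealizable (k : Type) [Field k] : Prop :=
  ∀ (G : Type) [Group G] [Finite G], IsNormallyRealizable k G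

/-- For every `C` all finite groups of sufficiently large order have a quotient of order at least
`C` which is isomorphic to a normal subgroup of a Galois group over `k`. -/
def LargeQuotientsNormallyRealizable (k : Type) [Field k] : Prop :=
  ∀ C : ℕ, ∃ B : ℕ, ∀ (G : Type) [Group G] [Finite G], B ≤ Nat.card G →
    ∃ (N : Subgroup G) (_ : N.Normal), C ≤ Nat.card (G ⧸ N) ∧ IsNormallyRealizable k (G ⧸ N)

theorem result :
    (∀ (k : Type) [Field k],
      (AllRealizable k ↔ AllNormallyRealizable k) ∧
      (AllRealizable k ↔ LargeQuotientsNormallyRealizable k)) ∧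
    ∀ (G : Type) [Group G] [Finite G], IsSubnormallyRealizable ℚ G := by
  refine ⟨fun k _ => ?_, fun G _ _ => ?_⟩
  swap
  · obtain ⟨n₀, hn₀⟩ := Pool.Agent.H391R2.intermediate_realize G
    obtain ⟨L, hL1, hL2, hL, ⟨e0⟩⟩ := hn₀ (n₀ + 1) (by omega) ⊤ le_top
    obtain ⟨N, R, h1, h2, h3⟩ := Pool.Agent.V11279.IG.tower_of_wreath G n₀
    exact ⟨_, inferInstance, N, R, ⟨⟨⟨L, hL1, hL2, hL, Subgroup.topEquiv.symm.trans e0⟩⟩⟩,
      h1, h2, h3⟩
  have h12 : AllRealizable k → AllNormallyRealizable k := by
    intro h G _ _
    exact ⟨G, inferInstance, ⊤, h G, inferInstance, ⟨Subgroup.topEquiv.symm⟩⟩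
  have h23 : AllNormallyRealizable k → LargeQuotientsNormallyRealizable k := by
    intro h C
    refine ⟨C, fun G _ _ hG => ⟨⊥, inferInstance, ?_, h (G ⧸ (⊥ : Subgroup G))⟩⟩
    exact le_trans hG (Pool.Agent.V11279.IG.quotient_bot_card G)
  have h31 : LargeQuotientsNormallyRealizable k → AllRealizable k := by
    intro h G _ _
    obtain ⟨L, h1, h2, h3, ⟨e⟩⟩ := Pool.Agent.V11279.IG.realizable_of_large_quotients k
      (fun C => by
        obtain ⟨B, hB⟩ := h C
        refine ⟨B, fun G _ _ hG => ?_⟩
        obtain ⟨N, hN, hC, Γ, hΓ, M, ⟨⟨⟨L, i1, i2, i3, e⟩⟩⟩, hM, hiso⟩ := hB G hG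
        exact ⟨N, hN, hC, Γ, hΓ, M, ⟨L, i1, i2, i3, ⟨e⟩⟩, hM, hiso⟩) G
    exact ⟨⟨⟨L, h1, h2, h3, e⟩⟩⟩
  exact ⟨⟨h12, fun h => h31 (h23 h)⟩, ⟨fun h => h23 (h12 h), h31⟩⟩

end Pool.Agent.Results.MP_dadaab_nt.NormalSubgroupsSuffice
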