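import Pool.Agent.V11286.IG.SymL

/-!
# All groups of bounded order over one Galois extension of `ℚ` with a symmetric group

For every `m`, all large `n` and all finite sets `S` of primes there are a totally real, tamely ramified Galois extension
`N` of `ℚ` in which the primes of `S` are totally split, and a subfield `M` of `N`, such that `M` is a Galois extension of
`ℚ` with `Gal(M/ℚ) ≅ S_n` and EVERY group of order at most `m` is the Galois group of a Galois extension of `M` contained
in `N`.
-/

set_option autoImplicit false

open NumberField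

namespace Pool.Agent.Results.MP_dadaab_nt.SymmetricBaseChange

/-- `N` is a Galois extension of `ℚ` which is totally real and tamely ramified (no ramification index of a prime ideal
over `p` is divisible by `p`), and every prime of `S` is totally split in `N` (there are `[N : ℚ]` distinct prime ideals
over it). -/
def GoodField (N : Type) [Field N] [NumberField N] (S : Finset ℕ) : Prop :=
  IsGalois ℚ N ∧ IsTotallyReal N ∧
    (∀ p ∈ S, p.Prime → ((Ideal.span {(p : ℤ)}).primesOver (𝓞 N)).ncard = Module.finrank ℚ N) ∧
    ∀ p : ℕ, p.Prime → ∀ P : Ideal (𝓞 N), P.IsPrime → (p : 𝓞 N) ∈ P → ¬ p ∣ P.ramificationIdx ℤ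

/-- `M` is a Galois extension of `ℚ` with the group `S_n`. -/
def Symmetric (M : Type) [Field M] [Algebra ℚ M] (n : ℕ) : Prop :=
  IsGalois ℚ M ∧ Nonempty (Equiv.Perm (Fin n) ≃* (M ≃ₐ[ℚ] M))

/-- Every group of order at most `m` is the Galois group of a Galois extension `F` of `M` which is contained in `N`. -/
def AllGroups (M N : Type) [Field M] [Field N] [Algebra M N] (m : ℕ) : Prop :=
  ∀ (G : Type) [Group G] [Finite G], Nat.card G ≤ m →
    ∃ F : IntermediateField M N, IsGalois M F ∧ Nonempty (G ≃* (F ≃ₐ[M] F))

end Pool.Agent.Results.MP_dadaab_nt.SymmetricBaseChange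

open Pool.Agent.Results.MP_dadaab_nt.SymmetricBaseChange in
/-- **Theorem.** For every `m` there is an `n₀` such that for all `n ≥ n₀` and every finite set `S` of primes there are a
totally real tamely ramified Galois extension `N` of `ℚ` in which the primes of `S` are totally split and a subfield `M`
of `N` such that `M/ℚ` is Galois with the group `S_n` and every group of order at most `m` is the Galois group of a Galois
extension of `M` contained in `N`. -/
theorem Pool.Agent.Results.MP_dadaab_nt.SymmetricBaseChange.result :
    ∀ m : ℕ, ∃ n₀ : ℕ, ∀ n ≥ n₀, ∀ S : Finset ℕ, ∃ (N : Type) (_ : Field N) (_ : NumberField N)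
      (M : IntermediateField ℚ N), GoodField N S ∧ Symmetric M n ∧ AllGroups M N m := by
  intro m
  obtain ⟨n₀, hn₀⟩ := Pool.Agent.V11286.IG.local_sym m
  refine ⟨n₀, fun n hn S => ?_⟩
  obtain ⟨N, i1, i2, M, h1, h2, h3, h4, h5, h6, h7⟩ := hn₀ n hn S
  exact ⟨N, i1, i2, M, ⟨h1, h2, h3, h4⟩, ⟨h5, h6⟩, fun G _ _ hG => h7 G hG⟩
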